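import Pool.Agent.Run7.h384.RF.Main
import Pool.Agent.Run7.h902.CyVan
import Pool.Agent.Helper834.EC.Dim1

/-!
# Higher Chow groups of complex schemes and motivic cohomology of fields
-/

set_option autoImplicit false

open CategoryTheory AlgebraicGeometry Polynomial Cardinal
open Pool.Agent.Y116.UV Pool.Agent.Run7.h902

namespace Pool.Agent.Run7.h384.RF

/-- A smooth affine complex variety `Spec A` of dimension `e` with function field `F`. -/
structure Model (F : Ext ℂ) (e : ℕ) where
  A : Type
  [ring : CommRing A]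
  [algebra : Algebra ℂ A]
  [algebraF : Algebra A F]
  finiteType : Algebra.FiniteType ℂ A
  smooth : Algebra.Smooth ℂ A
  tower : IsScalarTower ℂ A F
  fraction : IsFractionRing A F
  dim : ringKrullDim A = e

attribute [instance] Model.ring Model.algebra Model.algebraF

/-- The scheme `Spec A` over `ℂ`. -/
noncomputable def Model.scheme {F : Ext ℂ} {e : ℕ} (M : Model F e) : Sch ℂ := aff ℂ M.A

/-- The element `x` of `CH_b(X, m)` comes from a closed subscheme of `X` of dimension less than `e`. -/
def FromSmaller (C : Cw.ChowC) (b : ℤ) (m e : ℕ) (X : Sch ℂ) (x : C.C.G b m X) : Prop :=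
  ∃ (Z U : Sch ℂ) (i : Z ⟶ X) (j : U ⟶ X), IsTriple i j ∧ FT True Z ∧
    topologicalKrullDim Z.left < e ∧ ∃ f : C.C.G b m Z →+ C.C.G b m X, x ∈ Set.range f

/-- Rational higher Chow groups `CH_b(X, m)` of complex schemes (`chow`) and rational motivic
cohomology `H^i(F, ℚ(n))` of the extension fields `F` of `ℂ` (`fields`) with their known relation:

* `generic`: for a smooth affine variety `M` of dimension `e` with function field `F` there is
  the restriction `CH_(e-n)(M, m) → H^(2 n - m)(F, ℚ(n))` to the generic point;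
* `support`: an element which restricts to `0` comes from a closed subscheme of smaller dimension;
* `exhaust`: for a finitely generated `F` every element of `H^(2 n - m)(F, ℚ(n))` is the restriction
  of an element of `CH_(e-n)(M, m)` for some smooth affine variety `M` with function field `F`. -/
structure ChowFields where
  chow : Cw.ChowC
  fields : Motivic ℂ ℚ
  generic : ∀ (n m e : ℕ) (F : Ext ℂ) (M : Model F e),
    chow.C.G ((e : ℤ) - n) m M.scheme →+ fields.H (2 * (n : ℤ) - m) n F
  support : ∀ (n m e : ℕ) (F : Ext ℂ) (M : Model F e) (x : chow.C.G ((e : ℤ) - n) m M.scheme),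
    generic n m e F M x = 0 → FromSmaller chow ((e : ℤ) - n) m e M.scheme x
  exhaust : ∀ (n m : ℕ) (F : Ext ℂ) (y : fields.H (2 * (n : ℤ) - m) n F),
    Algebra.EssFiniteType ℂ F → ∃ (e : ℕ) (M : Model F e), y ∈ Set.range (generic n m e F M)

lemma Model.isDomain {F : Ext ℂ} {e : ℕ} (M : Model F e) : IsDomain M.A := by
  have := M.fraction
  exact (IsFractionRing.injective M.A F).isDomain (algebraMap M.A F)

lemma Model.trdeg {F : Ext ℂ} {e : ℕ} (M : Model F e) : Algebra.trdeg ℂ F = e := by
  have := M.fraction
  have := M.finiteType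
  have := M.tower
  have := M.isDomain
  obtain ⟨s, h1, h2⟩ := Pool.Agent.Helper834.EC.exists_ringKrullDim_eq_trdeg ℂ M.A
  have h3 : s = e := by
    have := h1.symm.trans M.dim
    exact_mod_cast this
  subst h3
  have h4 := trdeg_add_eq ℂ M.A (A := F)
  have h5 : Algebra.IsAlgebraic M.A F := IsLocalization.isAlgebraic _ (nonZeroDivisors M.A)
  rw [trdeg_eq_zero (R := M.A) (A := F), add_zero, h2] at h4
  exact h4.symm

lemma Model.fg {F : Ext ℂ} {e : ℕ} (M : Model F e) : Algebra.EssFiniteType ℂ F := by
  have := M.fraction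
  have := M.finiteType
  have := M.tower
  have h1 : Algebra.EssFiniteType M.A F :=
    Algebra.EssFiniteType.of_isLocalization F (nonZeroDivisors M.A)
  exact Algebra.EssFiniteType.comp ℂ M.A F

namespace ChowFields

variable (E : ChowFields)

/-- from schemes to fields -/
lemma vanish_of_neg (w d : ℕ)
    (h : ∀ X : Sch ℂ, FT True X → topologicalKrullDim X.left ≤ d → E.chow.C.NegAll w X)
    (n : ℕ) (hn : n ≤ w) (i : ℤ) (hi : i < 0) : E.fields.Vanish i n d := by
  intro F hF hFd
  obtain ⟨m, rfl⟩ : ∃ m : ℕ, i = 2 * (n : ℤ) - m := ⟨(2 * n - i).toNat, by omega⟩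
  refine subsingleton_of_forall_eq 0 fun y => ?_
  obtain ⟨e, M, x, rfl⟩ := E.exhaust n m F y hF
  have hft := M.finiteType
  have hed : e ≤ d := by
    rw [M.trdeg] at hFd
    exact_mod_cast hFd
  have h1 : topologicalKrullDim M.scheme.left = e := (Cw.dim_aff ℂ M.A).trans M.dim
  have h2 := h M.scheme (ft_aff True) (h1.le.trans (by exact_mod_cast hed)) e h1.le n m hn (by omega)
  rw [Subsingleton.elim x 0, map_zero]

/-- the field of fractions -/
noncomputable def fractionModel (A : Type) [CommRing A] [Algebra ℂ A] [hf : Algebra.FiniteType ℂ A]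
    [IsDomain A] (h : Algebra.Smooth ℂ A) (e : ℕ) (he : ringKrullDim A = e) :
    Model ⟨FractionRing A⟩ e where
  A := A
  algebraF := inferInstanceAs (Algebra A (FractionRing A))
  finiteType := hf
  smooth := h
  tower := inferInstanceAs (IsScalarTower ℂ A (FractionRing A))
  fraction := inferInstanceAs (IsFractionRing A (FractionRing A))
  dim := he

/-- from fields to schemes -/
lemma neg_of_vanish (w : ℕ) : ∀ d : ℕ, (∀ n ≤ w, ∀ i < 0, E.fields.Vanish i n d) →
    ∀ X : Sch ℂ, FT True X → topologicalKrullDim X.left ≤ d → E.chow.C.NegAll w X := by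
  have key : ∀ d : ℕ, (∀ n ≤ w, ∀ i < 0, E.fields.Vanish i n d) →
      (∀ d' < d, ∀ X : Sch ℂ, FT True X → topologicalKrullDim X.left ≤ d' → E.chow.C.NegAll w X) →
      ∀ X : Sch ℂ, FT True X → topologicalKrullDim X.left ≤ d → E.chow.C.NegAll w X := by
    intro d h ih
    refine Cw.neg_fixed E.chow.C w d fun A _ _ _ hd hN hN2 _ => ?_
    intro e he n m h1 h2
    rw [Cw.dim_aff] at he
    have hed : e ≤ d := by
      rw [he] at hN2
      exact_mod_cast hN2
    let M := fractionModel A hN e he
    refine subsingleton_of_forall_eq 0 fun x => ?_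
    have h3 : Subsingleton (E.fields.H (2 * (n : ℤ) - m) n ⟨FractionRing A⟩) :=
      h n h1 _ (by omega) _ M.fg (by rw [M.trdeg]; exact_mod_cast hed)
    obtain ⟨Z, U, i, j, ht, hZ, hZd, f, z, hz⟩ :=
      E.support n m e _ M x (Subsingleton.elim _ _)
    have hz' : f z = x := hz
    have h4 := Cw.neg_compl E.chow.C hZ hZd
      (fun e' he' hZe => ih e' (by omega) Z hZ hZe) h1 (m := m) (by omega)
    have hz0 : f z = 0 := by rw [Subsingleton.elim z 0, map_zero]
    exact hz'.symm.trans hz0
  intro d
  induction d using Nat.strong_induction_on with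
  | _ d ih =>
    intro h
    refine key d h fun d' hd' => ih d' hd' fun n hn i hi F hF hFd => ?_
    exact h n hn i hi F hF (hFd.trans (by exact_mod_cast hd'.le))

end ChowFields

end Pool.Agent.Run7.h384.RF
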