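import Pool.Agent.Run7.h384.RF.Defs

/-!
# Consequences of the exact sequence for `K(t)` and of the translations
-/

set_option autoImplicit false

open Polynomial

namespace Pool.Agent.Run7.h384.RF

section shift

variable {K : Type} [Field K]

lemma shift_fiber_finite (P Q : Pt K) : {a : K | P.shift a = Q}.Finite := by
  have hne : Q.1 - C (P.1.eval 0) ≠ 0 := by
    intro h
    have h1 : Q.1 = C (P.1.eval 0) := sub_eq_zero.mp h
    have h2 := Q.2.2.natDegree_pos
    rw [h1, natDegree_C] at h2
    omega
  refine Set.Finite.subset (((Q.1 - C (P.1.eval 0)).rootSet_finite K).preimage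
    (f := fun x : K => -x) neg_injective.injOn) ?_
  intro a ha
  have h : P.1.comp (X + C a) = Q.1 := congrArg Subtype.val ha
  rw [Set.mem_preimage, mem_rootSet]
  refine ⟨hne, ?_⟩
  rw [map_sub, ← h, aeval_C]
  simp [eval_comp]

lemma not_subset_finite {T : Set K} (hT : T.Infinite) (P : Pt K) (S : Set (Pt K)) (hS : S.Finite) :
    ∃ a ∈ T, P.shift a ∉ S := by
  by_contra hcon
  push Not at hcon
  refine hT (Set.Finite.subset (hS.biUnion fun Q _ => shift_fiber_finite P Q) ?_)
  intro a ha
  simp only [Set.mem_iUnion]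
  exact ⟨_, hcon a ha, rfl⟩

end shift

section

variable {k : Type} [Field k] {R : Type} [CommRing R]

lemma kappaShift_surjective {K : Type} [Field K] (P : Pt K) (a : K) :
    Function.Surjective (kappaShift P a) := by
  let Q := P.shift a
  let f : AdjoinRoot P.1 →ₐ[K] AdjoinRoot Q.1 :=
    AdjoinRoot.liftAlgHom P.1 (Algebra.ofId K (AdjoinRoot Q.1))
      (AdjoinRoot.root Q.1 + algebraMap K _ a) (root_shift P a)
  have hroot : AdjoinRoot.root Q.1 ∈ f.range := by
    have h1 : AdjoinRoot.root Q.1 + algebraMap K _ a ∈ f.range :=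
      ⟨AdjoinRoot.root P.1, AdjoinRoot.liftAlgHom_root _ _ _ _⟩
    have h2 : algebraMap K (AdjoinRoot Q.1) a ∈ f.range := f.range.algebraMap_mem a
    simpa using f.range.sub_mem h1 h2
  have htop : f.range = ⊤ := by
    rw [eq_top_iff, ← AdjoinRoot.adjoinRoot_eq_top, Algebra.adjoin_le_iff]
    simpa using hroot
  exact fun y => (AlgHom.range_eq_top f).mp htop y

lemma shiftResidue_bijective (K : Ext k) (a : K) (P : Pt K) :
    Function.Bijective (K.shiftResidue a P) :=
  ⟨(K.shiftResidue a P : K.residue P →+* K.residue (P.shift a)).injective,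
    kappaShift_surjective P a⟩

lemma Theory.Residues.ext {A : Theory k R} {i : ℤ} {n : ℕ} {K : Ext k} {x y : A.Residues i n K}
    (h : ∀ P, x.at P = y.at P) : x = y :=
  DFinsupp.ext h

lemma Theory.Residues.zero_at {A : Theory k R} {i : ℤ} {n : ℕ} {K : Ext k} (P : Pt K) :
    (0 : A.Residues i n K).at P = 0 := rfl

/-- the component as a linear map -/
noncomputable def Theory.component (A : Theory k R) (i : ℤ) (n : ℕ) (K : Ext k) (P : Pt K) :
    A.Residues i n K →ₗ[R] A.H i n (K.residue P) :=
  DirectSum.component R (Pt K) (fun P => A.H i n (K.residue P)) P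

lemma Theory.component_apply (A : Theory k R) (i : ℤ) (n : ℕ) (K : Ext k) (P : Pt K)
    (x : A.Residues i n K) : A.component i n K P x = x.at P := rfl

namespace Motivic

variable (A : Motivic k R)

lemma exact (i : ℤ) (n : ℕ) (K : Ext k) :
    Function.Exact (A.map (i + 1) (n + 1) K.toRat) (A.res i n K) := (A.isResidue i n K).exact

lemma surjective (i : ℤ) (n : ℕ) (K : Ext k) : Function.Surjective (A.res i n K) :=
  (A.isResidue i n K).surjective

lemma translation (i : ℤ) (n : ℕ) (K : Ext k) (a : K) (P : Pt K)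
    (x : A.H (i + 1) (n + 1) K.rat) :
    (A.res i n K (A.map (i + 1) (n + 1) (K.shiftRat a) x)).at (P.shift a) =
      A.map i n (K.shiftResidue a P) ((A.res i n K x).at P) :=
  (A.isResidue i n K).translation a P x

lemma map_injective_of_bijective (i : ℤ) (n : ℕ) {F L : Ext k} (f : F →ₐ[k] L)
    (hf : Function.Bijective f) : Function.Bijective (A.map i n f) := by
  let e := AlgEquiv.ofBijective f hf
  have h1 : ((e.symm : L →ₐ[k] F)).comp f = AlgHom.id k F := by
    ext x
    exact e.symm_apply_apply x
  have h2 : f.comp (e.symm : L →ₐ[k] F) = AlgHom.id k L := by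
    ext x
    exact e.apply_symm_apply x
  have h3 := A.map_comp i n f (e.symm : L →ₐ[k] F)
  have h4 := A.map_comp i n (e.symm : L →ₐ[k] F) f
  rw [h1, A.map_id] at h3
  rw [h2, A.map_id] at h4
  refine Function.bijective_iff_has_inverse.mpr ⟨A.map i n (e.symm : L →ₐ[k] F), ?_, ?_⟩
  · intro x
    exact (LinearMap.congr_fun h3 x).symm
  · intro x
    exact (LinearMap.congr_fun h4 x).symm

lemma subsingleton_of_equiv (i : ℤ) (n : ℕ) {F L : Ext k} (e : F ≃ₐ[k] L)
    (h : Subsingleton (A.H i n L)) : Subsingleton (A.H i n F) :=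
  (A.map_injective_of_bijective i n (e : F →ₐ[k] L) e.bijective).1.subsingleton

lemma subsingleton_of_rat (i : ℤ) (n : ℕ) (K : Ext k) (h : Subsingleton (A.H i n K.rat)) :
    Subsingleton (A.H i n K) :=
  (A.injective i n K).subsingleton

/-- vanishing for `K(t)` in the next degree and weight implies vanishing for all residue fields -/
lemma subsingleton_residue (i : ℤ) (n : ℕ) (K : Ext k)
    (h : ∀ x, A.res i n K x = 0) (P : Pt K) : Subsingleton (A.H i n (K.residue P)) := by
  classical
  refine subsingleton_of_forall_eq 0 fun y => ?_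
  obtain ⟨x, hx⟩ := A.surjective i n K (DirectSum.of (fun P => A.H i n (K.residue P)) P y)
  rw [h x] at hx
  have h1 := congrArg (fun z : DirectSum (Pt K) fun P => A.H i n (K.residue P) => z P) hx
  have h2 : (DirectSum.of (fun P => A.H i n (K.residue P)) P y) P = y :=
    DirectSum.of_eq_same (β := fun P => A.H i n (K.residue P)) P y
  exact (h1.trans h2).symm

lemma res_map (i : ℤ) (n : ℕ) (K : Ext k) (x : A.H (i + 1) (n + 1) K) :
    A.res i n K (A.map (i + 1) (n + 1) K.toRat x) = 0 :=
  (A.exact i n K).apply_apply_eq_zero x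

/-- the support of the residue -/
def supp (i : ℤ) (n : ℕ) (K : Ext k) (x : A.H (i + 1) (n + 1) K.rat) : Set (Pt K) :=
  {P | (A.res i n K x).at P ≠ 0}

lemma supp_finite (i : ℤ) (n : ℕ) (K : Ext k) (x : A.H (i + 1) (n + 1) K.rat) :
    (A.supp i n K x).Finite := by
  classical
  exact DFinsupp.finite_support (A.res i n K x)

/-- the residue of a translate -/
lemma at_shift_eq_zero (i : ℤ) (n : ℕ) (K : Ext k) (x : A.H (i + 1) (n + 1) K.rat) (a : K)
    (P : Pt K)
    (h : (A.res i n K (A.map (i + 1) (n + 1) (K.shiftRat a) x)).at (P.shift a) = 0) :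
    (A.res i n K x).at P = 0 := by
  rw [A.translation i n K a P x] at h
  exact (A.map_injective_of_bijective i n _ (shiftResidue_bijective K a P)).1
    (h.trans (map_zero _).symm)

/-- If the supports of the translates of `x` by infinitely many elements lie in a finite set, then
the residues of `x` vanish. -/
lemma res_eq_zero_of_shift (i : ℤ) (n : ℕ) (K : Ext k) (x : A.H (i + 1) (n + 1) K.rat)
    {T : Set K} (hT : T.Infinite) (S : Set (Pt K)) (hS : S.Finite)
    (h : ∀ a ∈ T, A.supp i n K (A.map (i + 1) (n + 1) (K.shiftRat a) x) ⊆ S) :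
    A.res i n K x = 0 := by
  refine Theory.Residues.ext fun P => ?_
  by_contra hP
  obtain ⟨a, ha, haS⟩ := not_subset_finite hT P S hS
  exact haS (h a ha fun h0 => hP (A.at_shift_eq_zero i n K x a P h0))

end Motivic

end

end Pool.Agent.Run7.h384.RF
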