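import Mathlib

/-!
# Motivic cohomology of the extension fields of a field `k`
-/

set_option autoImplicit false

open Polynomial

namespace Pool.Agent.Run7.h384.RF

/-! ### closed points of the affine line and translations -/

/-- The closed points of the affine line over the field `K`: the monic irreducible polynomials. -/
def Pt (K : Type) [Field K] : Type := {P : K[X] // P.Monic ∧ Irreducible P}

section

variable {K : Type} [Field K]

instance Pt.fact (P : Pt K) : Fact (Irreducible P.1) := ⟨P.2.2⟩

/-- The translation `P(t) ↦ P(t + a)` of closed points. -/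
noncomputable def Pt.shift (P : Pt K) (a : K) : Pt K :=
  ⟨P.1.comp (X + C a), P.2.1.comp_X_add_C a,
    (MulEquiv.irreducible_iff (algEquivAevalXAddC a : K[X] ≃* K[X])).mpr P.2.2⟩

/-- The automorphism `f(t) ↦ f(t + a)` of `K(t)` over `K`. -/
noncomputable def ratShift (a : K) : RatFunc K →ₐ[K] RatFunc K :=
  (IsFractionRing.fieldEquivOfAlgEquiv K (RatFunc K) (RatFunc K) (algEquivAevalXAddC a)).toAlgHom

/-- The root of `P(t + a)` plus `a` is a root of `P(t)`. -/
lemma root_shift (P : Pt K) (a : K) :
    P.1.eval₂ (AdjoinRoot.of (P.shift a).1) (AdjoinRoot.root (P.shift a).1 +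
      AdjoinRoot.of (P.shift a).1 a) = 0 := by
  have h := AdjoinRoot.eval₂_root (P.shift a).1
  rw [show (P.shift a).1.eval₂ (AdjoinRoot.of (P.shift a).1) (AdjoinRoot.root (P.shift a).1) =
    (P.1.comp (X + C a)).eval₂ (AdjoinRoot.of (P.shift a).1) (AdjoinRoot.root (P.shift a).1) from
      rfl, eval₂_comp, eval₂_add, eval₂_X, eval₂_C] at h
  exact h

/-- The homomorphism `f(t) ↦ f(t + a)` from the residue field of `P(t)` to the residue field of
`P(t + a)`. -/
noncomputable def kappaShift (P : Pt K) (a : K) : AdjoinRoot P.1 →+* AdjoinRoot (P.shift a).1 :=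
  AdjoinRoot.lift (AdjoinRoot.of (P.shift a).1)
    (AdjoinRoot.root (P.shift a).1 + AdjoinRoot.of (P.shift a).1 a) (root_shift P a)

end

/-! ### extension fields -/

/-- An extension field of the field `k`. -/
structure Ext (k : Type) [Field k] where
  carrier : Type
  [field : Field carrier]
  [algebra : Algebra k carrier]

attribute [instance] Ext.field Ext.algebra

instance (k : Type) [Field k] : CoeSort (Ext k) Type := ⟨Ext.carrier⟩

section

variable {k : Type} [Field k]

/-- The field `k` itself. -/
def Ext.base (k : Type) [Field k] : Ext k := ⟨k⟩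

/-- The field `K(t)` of rational functions in one variable. -/
noncomputable def Ext.rat (K : Ext k) : Ext k := ⟨RatFunc K⟩

/-- The residue field `K[t]/(P)` of a closed point `P` of the affine line over `K`. -/
noncomputable def Ext.residue (K : Ext k) (P : Pt K) : Ext k := ⟨AdjoinRoot P.1⟩

/-- The field `K_m = k(t_1, …, t_m)`, defined by `K_0 = k` and `K_(m+1) = K_m(t)`. -/
noncomputable def Ext.tower (k : Type) [Field k] : ℕ → Ext k
  | 0 => Ext.base k
  | m + 1 => (Ext.tower k m).rat

/-- The homomorphism of extension fields given by a ring homomorphism over `k`. -/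
def Ext.mkHom {F L : Ext k} (f : F →+* L) (h : ∀ c : k, f (algebraMap k F c) = algebraMap k L c) :
    F →ₐ[k] L :=
  AlgHom.mk f h

lemma toRat_commutes (K : Ext k) (c : k) :
    (algebraMap K (RatFunc K) : K →+* K.rat) (algebraMap k K c) = algebraMap k K.rat c :=
  (IsScalarTower.algebraMap_apply k K (RatFunc K) c).symm

/-- The inclusion of `K` in `K(t)`. -/
noncomputable def Ext.toRat (K : Ext k) : K →ₐ[k] K.rat :=
  Ext.mkHom (algebraMap K (RatFunc K)) (toRat_commutes K)

/-- The inclusion of `k` in `K`. -/
noncomputable def Ext.ofBase (K : Ext k) : Ext.base k →ₐ[k] K := Algebra.ofId k K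

lemma shiftRat_commutes (K : Ext k) (a : K) (c : k) :
    ((ratShift a).toRingHom : K.rat →+* K.rat) (algebraMap k K.rat c) = algebraMap k K.rat c := by
  rw [← toRat_commutes]
  exact (ratShift a).commutes _

/-- The automorphism `f(t) ↦ f(t + a)` of `K(t)`. -/
noncomputable def Ext.shiftRat (K : Ext k) (a : K) : K.rat →ₐ[k] K.rat :=
  Ext.mkHom (ratShift a).toRingHom (shiftRat_commutes K a)

/-- The homomorphism `f(t) ↦ f(t + a)` of residue fields. -/
noncomputable def Ext.residueHom (K : Ext k) (a : K) (P : Pt K) :
    K.residue P →+* K.residue (P.shift a) := kappaShift P a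

lemma shiftResidue_commutes (K : Ext k) (a : K) (P : Pt K) (c : k) :
    K.residueHom a P (algebraMap k (K.residue P) c) = algebraMap k (K.residue (P.shift a)) c :=
  AdjoinRoot.lift_of (root_shift P a)

/-- The isomorphism `f(t) ↦ f(t + a)` from the residue field of `P(t)` to the residue field of
`P(t + a)`. -/
noncomputable def Ext.shiftResidue (K : Ext k) (a : K) (P : Pt K) :
    K.residue P →ₐ[k] K.residue (P.shift a) :=
  Ext.mkHom (K.residueHom a P) (shiftResidue_commutes K a P)

end

/-! ### motivic cohomology of fields -/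

/-- Functors `H^i(F, n)` from extension fields `F` of `k` to modules over `R`. -/
structure Theory (k : Type) [Field k] (R : Type) [CommRing R] where
  H : ℤ → ℕ → Ext k → Type
  [group : ∀ i n F, AddCommGroup (H i n F)]
  [module : ∀ i n F, Module R (H i n F)]
  map : ∀ (i : ℤ) (n : ℕ) {F L : Ext k}, (F →ₐ[k] L) → (H i n F →ₗ[R] H i n L)
  map_id : ∀ (i : ℤ) (n : ℕ) (F : Ext k), map i n (AlgHom.id k F) = LinearMap.id
  map_comp : ∀ (i : ℤ) (n : ℕ) {F L M : Ext k} (f : F →ₐ[k] L) (g : L →ₐ[k] M),
    map i n (g.comp f) = map i n g ∘ₗ map i n f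

attribute [instance] Theory.group Theory.module

section

variable {k : Type} [Field k] {R : Type} [CommRing R] (A : Theory k R)

/-- The direct sum `⨁_P H^i(K_P, n)` over the closed points `P` of the affine line over `K`. -/
def Theory.Residues (i : ℤ) (n : ℕ) (K : Ext k) : Type :=
  DirectSum (Pt K) fun P => A.H i n (K.residue P)

noncomputable instance (i : ℤ) (n : ℕ) (K : Ext k) : AddCommGroup (A.Residues i n K) :=
  (inferInstance : AddCommGroup (DirectSum (Pt K) fun P => A.H i n (K.residue P)))

noncomputable instance (i : ℤ) (n : ℕ) (K : Ext k) : Module R (A.Residues i n K) :=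
  (inferInstance : Module R (DirectSum (Pt K) fun P => A.H i n (K.residue P)))

/-- The component at the closed point `P`. -/
def Theory.Residues.at {A : Theory k R} {i : ℤ} {n : ℕ} {K : Ext k} (x : A.Residues i n K)
    (P : Pt K) : A.H i n (K.residue P) :=
  DFinsupp.toFun x P

/-- Known properties of the residue map `H^(i+1)(K(t), n+1) → ⨁_P H^i(K_P, n)`: it is surjective, its
kernel is the image of `H^(i+1)(K, n+1)`, and it is compatible with the translations
`t ↦ t + a`, `a ∈ K`. -/
structure Theory.IsResidue (i : ℤ) (n : ℕ) (K : Ext k)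
    (res : A.H (i + 1) (n + 1) K.rat →ₗ[R] A.Residues i n K) : Prop where
  exact : Function.Exact (A.map (i + 1) (n + 1) K.toRat) res
  surjective : Function.Surjective res
  translation : ∀ (a : K) (P : Pt K) (x : A.H (i + 1) (n + 1) K.rat),
    (res (A.map (i + 1) (n + 1) (K.shiftRat a) x)).at (P.shift a) =
      A.map i n (K.shiftResidue a P) ((res x).at P)

end

/-- Motivic cohomology `H^i(F, R(n))` of the extension fields `F` of `k`, with the following known
properties: functoriality (`Theory`); every element comes from a finitely generated extension of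
`k`; for every `K` the sequence
`0 → H^(i+1)(K, n+1) → H^(i+1)(K(t), n+1) → ⨁_P H^i(K_P, n) → 0` over the closed points `P` of the
affine line over `K` is exact and compatible with translations; and `H^i(K, n) → H^i(K(t), n)` is
injective also for `n = 0`. -/
structure Motivic (k : Type) [Field k] (R : Type) [CommRing R] extends Theory k R where
  continuity : ∀ (i : ℤ) (n : ℕ) (L : Ext k) (x : H i n L), ∃ (F : Ext k) (f : F →ₐ[k] L),
    Algebra.EssFiniteType k F ∧ x ∈ Set.range (map i n f)
  injective : ∀ (i : ℤ) (n : ℕ) (K : Ext k), Function.Injective (map i n K.toRat)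
  res : ∀ (i : ℤ) (n : ℕ) (K : Ext k), H (i + 1) (n + 1) K.rat →ₗ[R] toTheory.Residues i n K
  isResidue : ∀ (i : ℤ) (n : ℕ) (K : Ext k), toTheory.IsResidue i n K (res i n K)

end Pool.Agent.Run7.h384.RF
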