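import Pool.Agent.Run7.h384.RF.Chow

/-!
# Vanishing in negative degrees and rational function fields
-/

set_option autoImplicit false

open CategoryTheory AlgebraicGeometry Polynomial Cardinal
open Pool.Agent.Y116.UV Pool.Agent.Run7.h902

namespace Pool.Agent.Run7.h384.RF

section

variable {k : Type} [Field k]

/-- the origin of the affine line -/
noncomputable def Pt.zero (K : Type) [Field K] : Pt K := ⟨X, monic_X, irreducible_X⟩

/-- the inclusion of `K` in the residue field of the origin -/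
noncomputable def toZero (K : Ext k) : K →ₐ[k] K.residue (Pt.zero K) :=
  IsScalarTower.toAlgHom k K (AdjoinRoot (Pt.zero K).1)

lemma toZero_bijective (K : Ext k) : Function.Bijective (toZero K) := by
  refine ⟨(toZero K : K →+* K.residue (Pt.zero K)).injective, ?_⟩
  let Q := Pt.zero K
  let f : K →ₐ[K] AdjoinRoot Q.1 := Algebra.ofId K _
  have hroot : AdjoinRoot.root Q.1 ∈ f.range := by
    have h : AdjoinRoot.root Q.1 = 0 := AdjoinRoot.mk_self
    rw [h]
    exact zero_mem _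
  have htop : f.range = ⊤ := by
    rw [eq_top_iff, ← AdjoinRoot.adjoinRoot_eq_top, Algebra.adjoin_le_iff]
    simpa using hroot
  exact fun y => (AlgHom.range_eq_top f).mp htop y

variable {R : Type} [CommRing R] (A : Motivic k R)

lemma Motivic.vanish_shift (i : ℤ) (n d : ℕ) (h : A.Vanish (i + 1) (n + 1) (d + 1)) :
    A.Vanish i n d := by
  intro F hF hFd
  have h1 : Subsingleton (A.H (i + 1) (n + 1) F.rat) := h F.rat (fg_rat F) (by
    rw [trdeg_rat]
    push_cast
    exact add_le_add_left hFd 1)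
  have h2 := A.subsingleton_residue i n F (fun x => by
    rw [Subsingleton.elim x 0, map_zero]) (Pt.zero F)
  exact (A.map_injective_of_bijective i n (toZero F) (toZero_bijective F)).1.subsingleton

lemma Motivic.vanish_mono (i : ℤ) (n : ℕ) {d d' : ℕ} (hd : d ≤ d') (h : A.Vanish i n d') :
    A.Vanish i n d :=
  fun F hF hFd => h F hF (hFd.trans (by exact_mod_cast hd))

lemma Motivic.vanish_of_minus_one (h : ∀ n d : ℕ, A.Vanish (-1) n d) (i : ℤ) (hi : i < 0)
    (n d : ℕ) : A.Vanish i n d := by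
  obtain ⟨j, rfl⟩ : ∃ j : ℕ, i = -1 - j := ⟨(-1 - i).toNat, by omega⟩
  clear hi
  induction j generalizing n d with
  | zero => simpa using h n d
  | succ j ih =>
    refine A.vanish_shift _ n d ?_
    have h1 : (-1 - ((j + 1 : ℕ) : ℤ)) + 1 = -1 - (j : ℤ) := by push_cast; ring
    rw [h1]
    exact ih (n + 1) (d + 1)

end

section

variable {R : Type} [CommRing R] (A : Motivic ℂ R)

lemma charZero_tower (d : ℕ) : CharZero (Ext.tower ℂ d) :=
  charZero_of_injective_algebraMap (algebraMap ℂ (Ext.tower ℂ d)).injective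

lemma infinite_tower (d : ℕ) : Infinite (Ext.tower ℂ d) :=
  Infinite.of_injective _ (algebraMap ℂ (Ext.tower ℂ d)).injective

lemma continuum_le (d : ℕ) : 𝔠 ≤ #(Ext.tower ℂ d) := by
  rw [← Cardinal.mk_complex]
  exact Cardinal.mk_le_of_injective (algebraMap ℂ (Ext.tower ℂ d)).injective

lemma Motivic.rational_iff (i : ℤ) (n d : ℕ) :
    A.Vanish i n d ↔ A.Rational (i + 1) (n + 1) (d + 1) := by
  have := infinite_tower d
  exact (A.tfae i n d).out 0 1

lemma Motivic.few_iff (i : ℤ) (n d : ℕ) :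
    A.Vanish i n d ↔ A.FewTranslates (i + 1) (n + 1) (Ext.tower ℂ d) := by
  have := infinite_tower d
  exact (A.tfae i n d).out 0 3

lemma Motivic.fixes_iff (i : ℤ) (n d : ℕ) :
    A.Vanish i n d ↔ A.Fixes (i + 1) (n + 1) (Ext.tower ℂ d) 1 := by
  have := infinite_tower d
  have := charZero_tower d
  constructor
  · intro h
    have h3 : A.Vanish i n d ↔ ∀ a : Ext.tower ℂ d, A.Fixes (i + 1) (n + 1) (Ext.tower ℂ d) a :=
      (A.tfae i n d).out 0 2
    exact h3.mp h 1
  · intro h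
    rw [A.few_iff]
    refine A.fewTranslates_of_fixes _ _ _ (T := Set.range ((↑) : ℕ → Ext.tower ℂ d))
      (Set.infinite_range_of_injective Nat.cast_injective) ?_
    rintro _ ⟨j, rfl⟩
    exact A.fixes_nat _ _ _ h j

lemma Motivic.small_iff (i : ℤ) (n d : ℕ) :
    A.Vanish i n d ↔ A.Small (i + 1) (n + 1) (Ext.tower ℂ (d + 1)) 𝔠 := by
  have := infinite_tower d
  constructor
  · intro h
    rw [A.rational_iff] at h
    refine ⟨∅, ?_, ?_⟩
    · rw [Cardinal.mk_eq_zero]
      exact Cardinal.continuum_pos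
    · rw [LinearMap.range_eq_top.mpr h.2]
      simp
  · rintro ⟨S, hS, h⟩
    have h3 : A.Vanish i n d ↔
        A.Small (i + 1) (n + 1) (Ext.tower ℂ (d + 1)) #(Ext.tower ℂ d) := (A.tfae i n d).out 0 4
    exact h3.mpr ⟨S, hS.trans_le (continuum_le d), h⟩

end

/-- reindexing of degrees and weights -/
lemma reindex {P Q : ℤ → ℕ → Prop} (w : ℕ) (h : ∀ i n, P i n ↔ Q (i + 1) (n + 1)) :
    (∀ n ≤ w, ∀ i < 0, P i n) ↔ (∀ n : ℕ, 1 ≤ n → n ≤ w + 1 → ∀ i ≤ 0, Q i n) := by
  constructor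
  · intro H n h1 h2 i hi
    obtain ⟨n, rfl⟩ : ∃ n', n = n' + 1 := ⟨n - 1, by omega⟩
    have := (h (i - 1) n).mp (H n (by omega) (i - 1) (by omega))
    rwa [sub_add_cancel] at this
  · intro H n hn i hi
    exact (h i n).mpr (H (n + 1) (by omega) (by omega) (i + 1) (by omega))

/-- **Theorem.** Vanishing in negative degrees, by dimension and weight. -/
theorem neg_tfae (E : ChowFields) (w d : ℕ) :
    List.TFAE [
      ∀ Y : Sch ℂ, Cw.SmoothProjective Y → topologicalKrullDim Y.left ≤ d → E.chow.C.Neg w Y,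
      ∀ n ≤ w, ∀ i < 0, E.fields.Vanish i n d,
      ∀ n : ℕ, 1 ≤ n → n ≤ w + 1 → ∀ i ≤ 0, E.fields.Rational i n (d + 1),
      ∀ n : ℕ, 1 ≤ n → n ≤ w + 1 → ∀ i ≤ 0, E.fields.Fixes i n (Ext.tower ℂ d) 1,
      ∀ n : ℕ, 1 ≤ n → n ≤ w + 1 → ∀ i ≤ 0, E.fields.FewTranslates i n (Ext.tower ℂ d),
      ∀ n : ℕ, 1 ≤ n → n ≤ w + 1 → ∀ i ≤ 0, E.fields.Small i n (Ext.tower ℂ (d + 1)) 𝔠] := by
  tfae_have 1 → 2 := fun h n hn i hi =>
    E.vanish_of_neg w d (((Cw.neg_dim E.chow w d).out 0 1).mp h) n hn i hi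
  tfae_have 2 → 1 := fun h =>
    ((Cw.neg_dim E.chow w d).out 0 1).mpr (E.neg_of_vanish w d h)
  tfae_have 2 ↔ 3 := reindex w fun i n => E.fields.rational_iff i n d
  tfae_have 2 ↔ 4 := reindex w fun i n => E.fields.fixes_iff i n d
  tfae_have 2 ↔ 5 := reindex w fun i n => E.fields.few_iff i n d
  tfae_have 2 ↔ 6 := reindex w fun i n => E.fields.small_iff i n d
  tfae_finish

lemma Motivic.rational_zero {k R : Type} [Field k] [CommRing R] (A : Motivic k R) (i : ℤ) (n : ℕ) :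
    A.Rational i n 0 :=
  ⟨A.ofBase_injective i n 0, A.surj_zero i n⟩

lemma Motivic.small_of_rational {k R : Type} [Field k] [CommRing R] (A : Motivic k R) (i : ℤ)
    (n m : ℕ) (h : A.Rational i n m) : A.Small i n (Ext.tower k m) 𝔠 := by
  refine ⟨∅, ?_, ?_⟩
  · rw [Cardinal.mk_eq_zero]
    exact Cardinal.continuum_pos
  · rw [LinearMap.range_eq_top.mpr h.2]
    simp

/-- **Theorem.** Vanishing in negative degrees for all smooth projective complex varieties. -/
theorem all_tfae (E : ChowFields) :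
    List.TFAE [
      ∀ (w : ℕ) (Y : Sch ℂ), Cw.SmoothProjective Y → E.chow.C.Neg w Y,
      ∀ n m : ℕ, 1 ≤ n → E.fields.Rational 0 n m,
      ∀ n m : ℕ, 1 ≤ n → E.fields.Fixes 0 n (Ext.tower ℂ m) 1,
      ∀ n m : ℕ, 1 ≤ n → E.fields.FewTranslates 0 n (Ext.tower ℂ m),
      ∀ n m : ℕ, 1 ≤ n → E.fields.Small 0 n (Ext.tower ℂ m) 𝔠] := by
  have key : (∀ (w : ℕ) (Y : Sch ℂ), Cw.SmoothProjective Y → E.chow.C.Neg w Y) ↔
      ∀ n d : ℕ, E.fields.Vanish (-1) n d := by
    constructor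
    · intro h n d
      have h1 : ∀ n' ≤ n, ∀ i < 0, E.fields.Vanish i n' d :=
        ((neg_tfae E n d).out 0 1).mp fun Y hY _ => h n Y hY
      exact h1 n le_rfl (-1) (by norm_num)
    · intro h w Y hY e he
      have h1 : ∀ Y : Sch ℂ, Cw.SmoothProjective Y → topologicalKrullDim Y.left ≤ e →
          E.chow.C.Neg w Y := ((neg_tfae E w e).out 0 1).mpr fun n _ i hi =>
        E.fields.vanish_of_minus_one h i hi n e
      exact h1 Y hY he.le e he
  have h2 : (∀ n d : ℕ, E.fields.Vanish (-1) n d) ↔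
      ∀ n m : ℕ, 1 ≤ n → E.fields.Rational 0 n m := by
    constructor
    · rintro h n (_ | m) hn
      · exact E.fields.rational_zero 0 n
      · obtain ⟨n, rfl⟩ : ∃ n', n = n' + 1 := ⟨n - 1, by omega⟩
        exact (E.fields.rational_iff (-1) n m).mp (h n m)
    · exact fun h n d => (E.fields.rational_iff (-1) n d).mpr (h (n + 1) (d + 1) (by omega))
  have h3 : (∀ n d : ℕ, E.fields.Vanish (-1) n d) ↔
      ∀ n m : ℕ, 1 ≤ n → E.fields.Fixes 0 n (Ext.tower ℂ m) 1 := by
    constructor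
    · intro h n m hn
      obtain ⟨n, rfl⟩ : ∃ n', n = n' + 1 := ⟨n - 1, by omega⟩
      exact (E.fields.fixes_iff (-1) n m).mp (h n m)
    · exact fun h n d => (E.fields.fixes_iff (-1) n d).mpr (h (n + 1) d (by omega))
  have h4 : (∀ n d : ℕ, E.fields.Vanish (-1) n d) ↔
      ∀ n m : ℕ, 1 ≤ n → E.fields.FewTranslates 0 n (Ext.tower ℂ m) := by
    constructor
    · intro h n m hn
      obtain ⟨n, rfl⟩ : ∃ n', n = n' + 1 := ⟨n - 1, by omega⟩
      exact (E.fields.few_iff (-1) n m).mp (h n m)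
    · exact fun h n d => (E.fields.few_iff (-1) n d).mpr (h (n + 1) d (by omega))
  have h5 : (∀ n d : ℕ, E.fields.Vanish (-1) n d) ↔
      ∀ n m : ℕ, 1 ≤ n → E.fields.Small 0 n (Ext.tower ℂ m) 𝔠 := by
    constructor
    · exact fun h n m hn => E.fields.small_of_rational 0 n m (h2.mp h n m hn)
    · exact fun h n d => (E.fields.small_iff (-1) n d).mpr (h (n + 1) (d + 1) (by omega))
  tfae_have 1 ↔ 2 := key.trans h2
  tfae_have 1 ↔ 3 := key.trans h3
  tfae_have 1 ↔ 4 := key.trans h4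
  tfae_have 1 ↔ 5 := key.trans h5
  tfae_finish

end Pool.Agent.Run7.h384.RF
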