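import Pool.Agent.Run7.h384.RF.Main
import Pool.Agent.TH358.GP.Cls

/-!
# The first cohomology of Goncharov's complexes and the vanishing in degrees `i ≤ 0`
-/

set_option autoImplicit false

open Polynomial Cardinal

namespace Pool.Agent.Run7.h384.RF

open GonP

section groups

variable {F F' : Type} [Field F] [Field F']

/-- A homomorphism of fields maps `R_n(F)` to `R_n(F')`, `n = m + 2`. -/
lemma R_le (φ : F →+* F') (m : ℕ) :
    R (m + 2) F ≤ (R (m + 2) F').comap (Finsupp.mapDomain.addMonoidHom (Option.map φ)) := by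
  intro r hr
  rw [GonP.R_eq] at hr
  rw [AddSubgroup.mem_comap, GonP.R_eq]
  exact H39Gon.R_map φ m r hr

/-- The map `B_n(F) → B_n(F')`, `{x} ↦ {φ x}`, of a homomorphism `φ : F → F'`, `n = m + 2`. -/
noncomputable def bMap (φ : F →+* F') (m : ℕ) : B (m + 2) F →+ B (m + 2) F' :=
  QuotientAddGroup.map (R (m + 2) F) (R (m + 2) F')
    (Finsupp.mapDomain.addMonoidHom (Option.map φ)) (R_le φ m)

/-- `B_n(F) ⊗ ℚ`, `n = m + 2`. -/
def BQ (F : Type) [Field F] (m : ℕ) : Type := TensRat (B (m + 2) F)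

noncomputable instance (F : Type) [Field F] (m : ℕ) : AddCommGroup (BQ F m) :=
  instAddCommGroupTensRat (B (m + 2) F)

noncomputable instance (F : Type) [Field F] (m : ℕ) : Module ℚ (BQ F m) :=
  instModuleRatTensRat (B (m + 2) F)

/-- The class of `α ∈ ℤ[P^1_F]` in `B_n(F) ⊗ ℚ`, `n = m + 2`. -/
noncomputable def bq {F : Type} [Field F] (m : ℕ) (α : ZP F) : BQ F m :=
  toRat (toQuo (R (m + 2) F) α)

/-- The map `B_n(F) ⊗ ℚ → B_n(F') ⊗ ℚ` of a homomorphism `φ : F → F'`, `n = m + 2`. -/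
noncomputable def bMapQ (φ : F →+* F') (m : ℕ) : BQ F m →ₗ[ℚ] BQ F' m :=
  LinearMap.baseChange ℚ (bMap φ m).toIntLinearMap

/-- The subgroup `A_n(F) = ker δ_n` of `ℤ[P^1_F]`, `n = m + 2`. -/
def KerDelta (F : Type) [Field F] : ℕ → Set (ZP F)
  | 0 => A2 F
  | m + 1 => AS F (R (m + 2) F)

/-- `H^1(Γ(F, n) ⊗ ℚ) = ker (δ_n ⊗ ℚ) ⊆ B_n(F) ⊗ ℚ`, `n = m + 2`: the subspace spanned by the classes of
the elements of `A_n(F)`. -/
noncomputable def H1 (F : Type) [Field F] (m : ℕ) : Submodule ℚ (BQ F m) :=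
  Submodule.span ℚ (bq m '' KerDelta F m)

/-- The vector space `H^1(Γ(F, n) ⊗ ℚ)`, `n = m + 2`. -/
def HOne (F : Type) [Field F] (m : ℕ) : Type := H1 F m

noncomputable instance (F : Type) [Field F] (m : ℕ) : AddCommGroup (HOne F m) :=
  Submodule.addCommGroup (H1 F m)

noncomputable instance (F : Type) [Field F] (m : ℕ) : Module ℚ (HOne F m) :=
  Submodule.module (H1 F m)

/-- An element of `H^1(Γ(F, n) ⊗ ℚ)` as an element of `B_n(F) ⊗ ℚ`. -/
def HOne.val {F : Type} [Field F] {m : ℕ} (u : HOne F m) : BQ F m := Subtype.val u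

lemma HOne.mem {F : Type} [Field F] {m : ℕ} (u : HOne F m) : u.val ∈ H1 F m := Subtype.prop u

lemma bMap_toQuo (φ : F →+* F') (m : ℕ) (α : ZP F) :
    bMap φ m (toQuo (R (m + 2) F) α) = toQuo (R (m + 2) F') (α.mapDomain (Option.map φ)) := rfl

lemma bMapQ_toRat (φ : F →+* F') (m : ℕ) (b : B (m + 2) F) :
    bMapQ φ m (toRat b : TensRat (B (m + 2) F)) = (toRat (bMap φ m b) : TensRat (B (m + 2) F')) :=
  rfl

/-- Elements of the kernel of `δ_n` for `K(x)` are constant modulo `R_n(K(x))`. -/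
lemma kerDelta_rigid (K : Type) [Field K] (m : ℕ) (α : ZP (RatFunc K))
    (hα : α ∈ KerDelta (RatFunc K) m) :
    toQuo (R (m + 2) (RatFunc K)) α =
      toQuo (R (m + 2) (RatFunc K)) (Pool.Agent.TH358.GP.atZero α) := by
  rcases m with _ | m
  · exact (Pool.Agent.TH358.GP.rigid K α).1 hα
  · exact (Pool.Agent.TH358.GP.rigid K α).2 m hα

/-- An endomorphism of `K(x)` over `K` fixes the classes of the elements of `ker δ_n`. -/
lemma bMap_fixes (K : Type) [Field K] (m : ℕ) (σ : RatFunc K →+* RatFunc K)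
    (hσ : ∀ c : K, σ (RatFunc.C c) = RatFunc.C c) (α : ZP (RatFunc K))
    (hα : α ∈ KerDelta (RatFunc K) m) :
    bMap σ m (toQuo (R (m + 2) (RatFunc K)) α) = toQuo (R (m + 2) (RatFunc K)) α := by
  rw [kerDelta_rigid K m α hα, bMap_toQuo]
  congr 1
  unfold Pool.Agent.TH358.GP.atZero
  rw [← Finsupp.mapDomain_comp]
  congr 1
  funext x
  rcases x with _ | x
  · rfl
  · exact congrArg some (hσ x)

lemma bMapQ_fixes (K : Type) [Field K] (m : ℕ) (σ : RatFunc K →+* RatFunc K)
    (hσ : ∀ c : K, σ (RatFunc.C c) = RatFunc.C c) (u : BQ (RatFunc K) m)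
    (hu : u ∈ H1 (RatFunc K) m) : bMapQ σ m u = u := by
  unfold H1 at hu
  induction hu using Submodule.span_induction with
  | mem u hu =>
    obtain ⟨α, hα, rfl⟩ := hu
    exact (bMapQ_toRat σ m _).trans (congrArg toRat (bMap_fixes K m σ hσ α hα))
  | zero => exact map_zero _
  | add u v _ _ hu hv => rw [map_add, hu, hv]
  | smul c u _ hu => rw [map_smul, hu]

end groups

section

variable {k : Type} [Field k]

lemma shiftRat_C (K : Ext k) (a : K) (c : K) :
    K.shiftRat a (RatFunc.C c : RatFunc K) = (RatFunc.C c : RatFunc K) :=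
  (ratShift a).commutes c

/-- the origin of the affine line -/
noncomputable def Pt.origin (K : Type) [Field K] : Pt K := ⟨X, monic_X, irreducible_X⟩

/-- the inclusion of `K` in the residue field of the origin -/
noncomputable def toOrigin (K : Ext k) : K →ₐ[k] K.residue (Pt.origin K) :=
  IsScalarTower.toAlgHom k K (AdjoinRoot (Pt.origin K).1)

lemma toOrigin_bijective (K : Ext k) : Function.Bijective (toOrigin K) := by
  refine ⟨(toOrigin K : K →+* K.residue (Pt.origin K)).injective, ?_⟩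
  let Q := Pt.origin K
  let f : K →ₐ[K] AdjoinRoot Q.1 := Algebra.ofId K _
  have hroot : AdjoinRoot.root Q.1 ∈ f.range := by
    have h : AdjoinRoot.root Q.1 = 0 := AdjoinRoot.mk_self
    rw [h]
    exact zero_mem _
  have htop : f.range = ⊤ := by
    rw [eq_top_iff, ← AdjoinRoot.adjoinRoot_eq_top, Algebra.adjoin_le_iff]
    simpa using hroot
  exact fun y => (AlgHom.range_eq_top f).mp htop y

variable {R : Type} [CommRing R]

namespace Motivic

/-- The vanishing `H^i(F, n) = 0` for all extension fields `F` of `k`, all `i ≤ 0` and all `n ≥ 1` with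
`n - i = c`. -/
def NonPositive (A : Motivic k R) (c : ℕ) : Prop :=
  ∀ (F : Ext k) (i : ℤ) (n : ℕ), i ≤ 0 → 1 ≤ n → (n : ℤ) - i = c → Subsingleton (A.H i n F)

variable (A : Motivic k R)

lemma subsingleton_of_res (i : ℤ) (n : ℕ) (K : Ext k) (h : ∀ x, A.res i n K x = 0) :
    Subsingleton (A.H i n K) :=
  have := A.subsingleton_residue i n K h (Pt.origin K)
  (A.map_injective_of_bijective i n (toOrigin K) (toOrigin_bijective K)).1.subsingleton

/-- degree `0` implies all negative degrees -/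
lemma nonPositive_of_zero (c : ℕ) (h : ∀ F : Ext k, Subsingleton (A.H 0 c F)) :
    A.NonPositive c := by
  intro F i n hi hn hc
  obtain ⟨j, rfl⟩ : ∃ j : ℕ, i = -j := ⟨(-i).toNat, by omega⟩
  obtain rfl : c = n + j := by omega
  clear hn hi hc
  induction j generalizing F n with
  | zero => simpa using h F
  | succ j ih =>
    refine A.subsingleton_of_res _ n F fun x => ?_
    have h1 : Subsingleton (A.H (-(j : ℤ)) (n + 1) F.rat) :=
      ih F.rat (n + 1) (fun F => by
        have := h F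
        rwa [show n + (j + 1) = n + 1 + j by omega] at this)
    have h2 : -((j + 1 : ℕ) : ℤ) + 1 = -(j : ℤ) := by push_cast; ring
    have h3 : Subsingleton (A.H (-((j + 1 : ℕ) : ℤ) + 1) (n + 1) F.rat) := by rw [h2]; exact h1
    rw [Subsingleton.elim x 0, map_zero]

lemma infinite_rat (K : Ext k) : Infinite K.rat :=
  Infinite.of_injective (algebraMap (Polynomial K) (RatFunc K))
    (IsFractionRing.injective (Polynomial K) (RatFunc K))

/-- continuity: it is enough to consider finitely generated fields -/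
lemma subsingleton_of_fg (i : ℤ) (n : ℕ)
    (h : ∀ F : Ext k, Algebra.EssFiniteType k F → Subsingleton (A.H i n F)) (L : Ext k) :
    Subsingleton (A.H i n L) := by
  refine subsingleton_of_forall_eq 0 fun x => ?_
  obtain ⟨F, f, hF, y, rfl⟩ := A.continuity i n L x
  have := h F hF
  rw [Subsingleton.elim y 0, map_zero]

lemma subsingleton_of_vanish (i : ℤ) (n : ℕ) (h : ∀ d, A.Vanish i n (d + 1)) (L : Ext k) :
    Subsingleton (A.H i n L) := by
  refine A.subsingleton_of_fg i n (fun F hF => ?_) L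
  obtain ⟨s, hs⟩ := exists_isTranscendenceBasis' k (A := F)
  have : FinTrdeg k F := inferInstance
  obtain ⟨m, hm⟩ := Cardinal.lt_aleph0.mp (trdeg_lt_aleph0 (K := k) (L := F))
  exact h m F hF (by rw [hm]; exact_mod_cast Nat.le_succ m)

end Motivic

/-! ### comparison in degree one -/

/-- The map `B_n(F) ⊗ ℚ → B_n(L) ⊗ ℚ` of a homomorphism `f : F → L` over `k`, `n = m + 2`. -/
noncomputable def Ext.push {F L : Ext k} (f : F →ₐ[k] L) (m : ℕ) : BQ F m →ₗ[ℚ] BQ L m :=
  bMapQ (f : F →+* L) m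

/-- The linear maps `sF : H^1(Γ(F, n) ⊗ ℚ) → H^1(F, ℚ(n))` and `sL`, `n = m + 2`, are compatible with the
homomorphism `f : F → L`. -/
def Compatible (A : Motivic k ℚ) (m : ℕ) {F L : Ext k} (f : F →ₐ[k] L)
    (sF : HOne F m →ₗ[ℚ] A.H 1 (m + 2) F) (sL : HOne L m →ₗ[ℚ] A.H 1 (m + 2) L) : Prop :=
  ∀ (u : HOne F m) (v : HOne L m), v.val = Ext.push f m u.val → sL v = A.map 1 (m + 2) f (sF u)

/-- Natural isomorphisms `H^1(Γ(F, n) ⊗ ℚ) ≅ H^1(F, ℚ(n))` for all extension fields `F` of `k`,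
`n = m + 2`: the question in degree `1` and weight `n`. -/
structure NaturalIso (A : Motivic k ℚ) (m : ℕ) where
  iso : ∀ F : Ext k, HOne F m →ₗ[ℚ] A.H 1 (m + 2) F
  bijective : ∀ F : Ext k, Function.Bijective (iso F)
  natural : ∀ (F L : Ext k) (f : F →ₐ[k] L), Compatible A m f (iso F) (iso L)

/-- There is an injective linear map from `H^1(K(t), ℚ(n))` to `H^1(Γ(K(t), n) ⊗ ℚ)`, `n = m + 2`, which is
compatible with the translations `t ↦ t + a`, `a ∈ K`. -/
def Injects (A : Motivic k ℚ) (m : ℕ) (K : Ext k) : Prop :=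
  ∃ c : A.H 1 (m + 2) K.rat →ₗ[ℚ] HOne K.rat m, Function.Injective c ∧
    ∀ (a : K) (x : A.H 1 (m + 2) K.rat),
      (c (A.map 1 (m + 2) (K.shiftRat a) x)).val = Ext.push (K.shiftRat a) m (c x).val

/-- There is a surjective linear map from `H^1(Γ(K(t), n) ⊗ ℚ)` to `H^1(K(t), ℚ(n))`, `n = m + 2`, which is
compatible with the translations `t ↦ t + a`, `a ∈ K`. -/
def Surjects (A : Motivic k ℚ) (m : ℕ) (K : Ext k) : Prop :=
  ∃ s : HOne K.rat m →ₗ[ℚ] A.H 1 (m + 2) K.rat, Function.Surjective s ∧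
    ∀ a : K, Compatible A m (K.shiftRat a) s s

lemma shift_H1 (K : Ext k) (m : ℕ) (a : K) (u : BQ K.rat m) (hu : u ∈ H1 K.rat m) :
    Ext.push (K.shiftRat a) m u = u :=
  bMapQ_fixes K m (K.shiftRat a : K.rat →+* K.rat) (shiftRat_C K a) u hu

lemma fixes_of_injects (A : Motivic k ℚ) (m : ℕ) (K : Ext k) (h : Injects A m K) (a : K) :
    A.Fixes 1 (m + 2) K a := by
  obtain ⟨c, hc, ht⟩ := h
  intro x
  exact hc (Subtype.ext ((ht a x).trans (shift_H1 K m a _ (c x).mem)))

lemma fixes_of_surjects (A : Motivic k ℚ) (m : ℕ) (K : Ext k) (h : Surjects A m K) (a : K) :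
    A.Fixes 1 (m + 2) K a := by
  obtain ⟨s, hs, ht⟩ := h
  intro x
  obtain ⟨u, rfl⟩ := hs x
  exact (ht a u u (shift_H1 K m a u.val u.mem).symm).symm

/-- **Theorem.** A linear map `H^1(Γ(K(t), n) ⊗ ℚ) → H^1(K(t), ℚ(n))` which is compatible with the
translations has its image in `H^1(K, ℚ(n))`. -/
theorem image_constant (A : Motivic k ℚ) (m : ℕ) (K : Ext k) [Infinite K]
    (s : HOne K.rat m →ₗ[ℚ] A.H 1 (m + 2) K.rat)
    (hs : ∀ a : K, Compatible A m (K.shiftRat a) s s) (u : HOne K.rat m) :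
    ∃ y : A.H 1 (m + 2) K, A.map 1 (m + 2) K.toRat y = s u := by
  have hfix : ∀ a : K, A.map 1 (m + 2) (K.shiftRat a) (s u) = s u := fun a =>
    (hs a u u (shift_H1 K m a u.val u.mem).symm).symm
  have h0 : A.res 0 (m + 1) K (s u) = 0 := by
    refine A.res_eq_zero_of_shift 0 (m + 1) K (s u) (Set.infinite_univ (α := K))
      (A.supp 0 (m + 1) K (s u)) (A.supp_finite 0 (m + 1) K (s u)) fun a _ => ?_
    have h1 : A.map (0 + 1) (m + 1 + 1) (K.shiftRat a) (s u) = s u := hfix a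
    rw [h1]
  exact (A.exact 0 (m + 1) K (s u)).mp h0

lemma surjects_of_iso (A : Motivic k ℚ) (m : ℕ) (N : NaturalIso A m) (K : Ext k) :
    Surjects A m K :=
  ⟨N.iso K.rat, (N.bijective K.rat).2, fun a => N.natural K.rat K.rat (K.shiftRat a)⟩

lemma res_eq_zero_of_fixes (A : Motivic k ℚ) (n : ℕ) (K : Ext k) [Infinite K]
    (h : ∀ a : K, A.Fixes 1 (n + 1) K a) : ∀ x, A.res 0 n K x = 0 := by
  have h1 : (1 : ℤ) = 0 + 1 := rfl
  refine A.res_eq_zero_of_few 0 n K (A.fewTranslates_of_fixes (0 + 1) (n + 1) K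
    (Set.infinite_univ (α := K)) fun a _ => h a)

/-- **Theorem.** The degree `1` implies the degrees `i ≤ 0`. -/
theorem nonPositive_of_iso (A : Motivic k ℚ) (m : ℕ) (N : NaturalIso A m) :
    A.NonPositive (m + 1) := by
  refine A.nonPositive_of_zero (m + 1) fun F => A.subsingleton_of_rat 0 (m + 1) F ?_
  have := Motivic.infinite_rat F
  exact A.subsingleton_of_res 0 (m + 1) F.rat (res_eq_zero_of_fixes A (m + 1) F.rat
    (fixes_of_surjects A m F.rat (surjects_of_iso A m N F.rat)))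

lemma infinite_tower_succ (d : ℕ) : Infinite (Ext.tower k (d + 1)) :=
  Motivic.infinite_rat (Ext.tower k d)

/-- **Theorem.** A comparison map for the purely transcendental field `K_(d+1)` is enough for the fields of
transcendence degree at most `d`. -/
theorem vanish_tower [PerfectField k] (A : Motivic k ℚ) (m d : ℕ) (hd : Infinite (Ext.tower k d))
    (h : Injects A m (Ext.tower k d) ∨ Surjects A m (Ext.tower k d)) :
    A.Vanish 0 (m + 1) d := by
  refine A.vanish_of_res 0 (m + 1) d (res_eq_zero_of_fixes A (m + 1) _ ?_)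
  rcases h with h | h
  · exact fixes_of_injects A m _ h
  · exact fixes_of_surjects A m _ h

theorem nonPositive_iff_vanish (A : Motivic k ℚ) (c : ℕ) (hc : 1 ≤ c) :
    A.NonPositive c ↔ ∀ d, A.Vanish 0 c (d + 1) := by
  constructor
  · intro h d F _ _
    exact h F 0 c le_rfl hc (by simp)
  · intro h
    exact A.nonPositive_of_zero c (A.subsingleton_of_vanish 0 c h)

/-- **Theorem.** The vanishing in the degrees `i ≤ 0` in terms of the fields `K_d`. -/
theorem nonPositive_tfae [PerfectField k] (A : Motivic k ℚ) (m : ℕ) :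
    List.TFAE [
      A.NonPositive (m + 1),
      ∀ d : ℕ, A.Rational 1 (m + 2) d,
      ∀ (d : ℕ) (a : Ext.tower k d), A.Fixes 1 (m + 2) (Ext.tower k d) a,
      ∀ d : ℕ, 1 ≤ d → A.FewTranslates 1 (m + 2) (Ext.tower k d),
      ∀ d : ℕ, 1 ≤ d → A.Small 1 (m + 2) (Ext.tower k (d + 1)) #(Ext.tower k d)] := by
  have h0 := nonPositive_iff_vanish A (m + 1) (by omega)
  have ht : ∀ d, List.TFAE [
      A.Vanish 0 (m + 1) (d + 1),
      A.Rational 1 (m + 2) (d + 1 + 1),
      ∀ a : Ext.tower k (d + 1), A.Fixes 1 (m + 2) (Ext.tower k (d + 1)) a,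
      A.FewTranslates 1 (m + 2) (Ext.tower k (d + 1)),
      A.Small 1 (m + 2) (Ext.tower k (d + 1 + 1)) #(Ext.tower k (d + 1))] := fun d =>
    have := infinite_tower_succ (k := k) d
    A.tfae 0 (m + 1) (d + 1)
  have hR : (∀ d, A.Rational 1 (m + 2) (d + 1 + 1)) → ∀ d, A.Rational 1 (m + 2) d := by
    intro h d
    exact ⟨A.ofBase_injective 1 (m + 2) d, A.surj_le 1 (m + 2) (by omega : d ≤ d + 1 + 1) (h d).2⟩
  tfae_have 1 → 2 := fun h => hR fun d => ((ht d).out 0 1).mp (h0.mp h d)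
  tfae_have 2 → 1 := fun h => h0.mpr fun d => ((ht d).out 0 1).mpr (h (d + 1 + 1))
  tfae_have 2 → 3 := fun h d a => A.fixes_of_rational 1 (m + 2) d (h (d + 1)) a
  tfae_have 3 → 1 := fun h => h0.mpr fun d => ((ht d).out 0 2).mpr (h (d + 1))
  tfae_have 1 → 4 := by
    intro h d hd
    obtain ⟨d, rfl⟩ : ∃ d', d = d' + 1 := ⟨d - 1, by omega⟩
    exact ((ht d).out 0 3).mp (h0.mp h d)
  tfae_have 4 → 1 := fun h => h0.mpr fun d => ((ht d).out 0 3).mpr (h (d + 1) (by omega))
  tfae_have 1 → 5 := by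
    intro h d hd
    obtain ⟨d, rfl⟩ : ∃ d', d = d' + 1 := ⟨d - 1, by omega⟩
    exact ((ht d).out 0 4).mp (h0.mp h d)
  tfae_have 5 → 1 := fun h => h0.mpr fun d => ((ht d).out 0 4).mpr (h (d + 1) (by omega))
  tfae_finish

end

end Pool.Agent.Run7.h384.RF
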