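import Pool.Agent.Run7.h384.RF.Defs

/-!
# Finitely generated fields are residue fields of points of the affine line over `K_m`
-/

set_option autoImplicit false

open Polynomial

namespace Pool.Agent.Run7.h384.RF

variable {k : Type} [Field k]

/-- extension of an embedding to the field of rational functions -/
lemma exists_rat_hom (K F : Ext k) (φ : K →ₐ[k] F) (y : F)
    (hy : Transcendental φ.fieldRange y) :
    ∃ ψ : K.rat →ₐ[k] F, ψ.fieldRange = φ.fieldRange ⊔ IntermediateField.adjoin k {y} := by
  let : Algebra K F := φ.toRingHom.toAlgebra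
  have : IsScalarTower k K F := IsScalarTower.of_algebraMap_eq fun c => (φ.commutes c).symm
  have : IsScalarTower k K[X] (RatFunc K) := IsScalarTower.of_algebraMap_eq fun c => by
    rw [RatFunc.algebraMap_apply]
    simp
  let g : K[X] →ₐ[k] F := (Polynomial.aeval (R := K) y).restrictScalars k
  have hg : Function.Injective g := by
    change Function.Injective (Polynomial.aeval (R := K) y)
    rw [← transcendental_iff_injective]
    intro ⟨p, hp0, hp⟩
    let r : K →+* φ.fieldRange :=
      { toFun := fun c => ⟨φ c, ⟨c, rfl⟩⟩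
        map_one' := Subtype.ext (map_one φ)
        map_mul' := fun a b => Subtype.ext (map_mul φ a b)
        map_zero' := Subtype.ext (map_zero φ)
        map_add' := fun a b => Subtype.ext (map_add φ a b) }
    refine hy ⟨p.map r, ?_, ?_⟩
    · exact (Polynomial.map_ne_zero_iff r.injective).mpr hp0
    · rw [Polynomial.aeval_def, Polynomial.eval₂_map]
      exact hp
  let ψ : RatFunc K →ₐ[k] F := IsFractionRing.liftAlgHom hg
  have hψ : ψ.fieldRange = IntermediateField.adjoin k g.range :=
    IsFractionRing.liftAlgHom_fieldRange hg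
  refine ⟨ψ, hψ.trans ?_⟩
  refine le_antisymm ?_ ?_
  · rw [IntermediateField.adjoin_le_iff]
    rintro _ ⟨p, rfl⟩
    change Polynomial.aeval y p ∈ _
    rw [Polynomial.aeval_eq_sum_range]
    refine sum_mem fun j _ => ?_
    rw [Algebra.smul_def]
    refine mul_mem ?_ (pow_mem ?_ j)
    · exact (le_sup_left : φ.fieldRange ≤ _) ⟨p.coeff j, rfl⟩
    · exact (le_sup_right : _ ≤ φ.fieldRange ⊔ IntermediateField.adjoin k {y})
        (IntermediateField.mem_adjoin_simple_self k y)
  · refine sup_le ?_ ?_
    · rintro _ ⟨c, rfl⟩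
      refine IntermediateField.subset_adjoin k _ ⟨C c, ?_⟩
      change Polynomial.aeval y (C c) = _
      rw [aeval_C]
      rfl
    · rw [IntermediateField.adjoin_le_iff]
      rintro _ rfl
      refine IntermediateField.subset_adjoin k _ ⟨X, ?_⟩
      change Polynomial.aeval _ X = _
      rw [aeval_X]

lemma exists_hom (F : Ext k) (s : Finset F) (hs : AlgebraicIndepOn k id (s : Set F)) :
    ∀ m : ℕ, s.card = m → ∃ φ : Ext.tower k m →ₐ[k] F,
      φ.fieldRange = IntermediateField.adjoin k (s : Set F) := by
  classical
  induction s using Finset.induction_on with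
  | empty =>
    rintro m rfl
    refine ⟨Ext.ofBase F, ?_⟩
    rw [Finset.coe_empty, IntermediateField.adjoin_empty]
    refine le_antisymm ?_ bot_le
    rintro _ ⟨c, rfl⟩
    exact (⊥ : IntermediateField k F).algebraMap_mem c
  | insert a t ha ih =>
    rintro m hm
    rw [Finset.coe_insert] at hs
    obtain ⟨h1, h2⟩ := (AlgebraicIndepOn.insert_iff (by simpa using ha)).mp hs
    obtain ⟨φ, hφ⟩ := ih h1 _ rfl
    rw [Finset.card_insert_of_notMem ha] at hm
    subst hm
    have h3 : Transcendental φ.fieldRange a := by
      rw [hφ]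
      intro h
      refine h2 ?_
      rw [Set.image_id]
      open scoped IntermediateField.algebraAdjoinAdjoin in
      exact (IsFractionRing.isAlgebraic_iff (Algebra.adjoin k (t : Set F))
        (IntermediateField.adjoin k (t : Set F)) F).mpr h
    obtain ⟨ψ, hψ⟩ := exists_rat_hom _ F φ a h3
    refine ⟨ψ, ?_⟩
    rw [Finset.coe_insert, Set.insert_eq, IntermediateField.adjoin_union, sup_comm, ← hφ]
    exact hψ

/-- Every finitely generated field of transcendence degree `m` over the perfect field `k` is a residue
field of a closed point of the affine line over `K_m`. -/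
theorem exists_model [PerfectField k] (F : Ext k) [Algebra.EssFiniteType k F] (m : ℕ)
    (hm : Algebra.trdeg k F = m) :
    ∃ P : Pt (Ext.tower k m), Nonempty (F ≃ₐ[k] (Ext.tower k m).residue P) := by
  obtain ⟨s, hs, hsep⟩ := exists_isTranscendenceBasis_and_isSeparable_of_perfectField k F
  have hcard : s.card = m := by
    have h := hs.cardinalMk_eq_trdeg
    rw [hm] at h
    simpa using h
  obtain ⟨φ, hφ⟩ := exists_hom F s hs.1 m hcard
  let K := Ext.tower k m
  let : Algebra K F := φ.toRingHom.toAlgebra
  have hT : IsScalarTower k K F := IsScalarTower.of_algebraMap_eq fun c => (φ.commutes c).symm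
  have h1 : Algebra.EssFiniteType K F := Algebra.EssFiniteType.of_comp k K F
  have h2 : Algebra.IsSeparable K F := by
    have hsep' : Algebra.IsSeparable φ.fieldRange F := by
      rw [hφ]; exact hsep
    let e : K ≃+* φ.fieldRange := RingEquiv.ofBijective
      ({ toFun := fun c => ⟨φ c, ⟨c, rfl⟩⟩
         map_one' := Subtype.ext (map_one φ)
         map_mul' := fun a b => Subtype.ext (map_mul φ a b)
         map_zero' := Subtype.ext (map_zero φ)
         map_add' := fun a b => Subtype.ext (map_add φ a b) } : K →+* φ.fieldRange)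
      ⟨RingHom.injective _, fun ⟨_, c, hc⟩ => ⟨c, Subtype.ext hc⟩⟩
    refine Algebra.IsSeparable.of_equiv_equiv e.symm (RingEquiv.refl F) ?_
    ext x
    obtain ⟨c, rfl⟩ := e.surjective x
    change algebraMap K F (e.symm (e c)) = _
    rw [e.symm_apply_apply]
    rfl
  have h3 : Module.Finite K F := Algebra.finite_of_essFiniteType_of_isAlgebraic
  obtain ⟨θ, hθ⟩ := Field.exists_primitive_element K F
  have hint : IsIntegral K θ := Algebra.IsIntegral.isIntegral θ
  refine ⟨⟨minpoly K θ, minpoly.monic hint, minpoly.irreducible hint⟩, ?_⟩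
  let e1 : AdjoinRoot (minpoly K θ) ≃ₐ[K] F :=
    (IntermediateField.adjoinRootEquivAdjoin K hint).trans
      ((IntermediateField.equivOfEq hθ).trans IntermediateField.topEquiv)
  exact ⟨(e1.restrictScalars k).symm⟩

lemma fg_rat (K : Ext k) [Algebra.EssFiniteType k K] : Algebra.EssFiniteType k K.rat := by
  have h1 : Algebra.EssFiniteType K[X] (RatFunc K) :=
    Algebra.EssFiniteType.of_isLocalization (RatFunc K) (nonZeroDivisors K[X])
  have h2 : Algebra.EssFiniteType K (RatFunc K) := Algebra.EssFiniteType.comp K K[X] (RatFunc K)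
  exact Algebra.EssFiniteType.comp k K (RatFunc K)

lemma fg_tower (m : ℕ) : Algebra.EssFiniteType k (Ext.tower k m) := by
  induction m with
  | zero => exact (inferInstance : Algebra.EssFiniteType k k)
  | succ m ih => exact fg_rat _

lemma fg_residue (K : Ext k) [Algebra.EssFiniteType k K] (P : Pt K) :
    Algebra.EssFiniteType k (K.residue P) := by
  have h2 : Algebra.EssFiniteType K (AdjoinRoot P.1) := inferInstance
  exact Algebra.EssFiniteType.comp k K (AdjoinRoot P.1)

lemma trdeg_rat (K : Ext k) : Algebra.trdeg k K.rat = Algebra.trdeg k K + 1 := by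
  have h1 : Algebra.trdeg K (RatFunc K) = 1 := by
    have h2 := trdeg_add_eq K K[X] (A := RatFunc K)
    have h3 : Algebra.IsAlgebraic K[X] (RatFunc K) :=
      IsLocalization.isAlgebraic _ (nonZeroDivisors K[X])
    rw [Polynomial.trdeg_of_isDomain, trdeg_eq_zero] at h2
    simpa using h2.symm
  have h2 := trdeg_add_eq k K (A := RatFunc K)
  rw [h1] at h2
  exact h2.symm

lemma trdeg_residue (K : Ext k) (P : Pt K) :
    Algebra.trdeg k (K.residue P) = Algebra.trdeg k K := by
  have h2 := trdeg_add_eq k K (A := AdjoinRoot P.1)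
  have h3 : Module.Finite K (AdjoinRoot P.1) := P.2.1.finite_adjoinRoot
  have h4 : Algebra.IsAlgebraic K (AdjoinRoot P.1) := inferInstance
  rw [trdeg_eq_zero (R := K) (A := AdjoinRoot P.1), add_zero] at h2
  exact h2.symm

lemma trdeg_tower (m : ℕ) : Algebra.trdeg k (Ext.tower k m) = m := by
  induction m with
  | zero =>
    have : Algebra.trdeg k k = 0 := trdeg_eq_zero
    exact this.trans (by simp)
  | succ m ih =>
    rw [show Ext.tower k (m + 1) = (Ext.tower k m).rat from rfl, trdeg_rat, ih]
    simp

end Pool.Agent.Run7.h384.RF
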