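import Pool.Agent.Run7.h384.RF.Core
import Pool.Agent.Run7.h384.RF.Model

/-!
# Vanishing for all fields of transcendence degree at most `d` in terms of `K_(d+1)`
-/

set_option autoImplicit false

open Polynomial Cardinal

namespace Pool.Agent.Run7.h384.RF

variable {k : Type} [Field k] {R : Type} [CommRing R]

lemma shiftRat_comp_ofBase (K : Ext k) (a : K) :
    (K.shiftRat a).comp K.rat.ofBase = K.rat.ofBase :=
  AlgHom.ext fun x => (K.shiftRat a).commutes x

lemma toRat_comp_ofBase (K : Ext k) : K.toRat.comp K.ofBase = K.rat.ofBase :=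
  AlgHom.ext fun x => K.toRat.commutes x

lemma shiftRat_comp_toRat (K : Ext k) (a : K) :
    (K.shiftRat a).comp K.toRat = K.toRat := by
  ext x
  exact (ratShift a).commutes x

/-- the composition of two translations -/
lemma shiftRat_algebraMap (K : Ext k) (a : K) (p : K[X]) :
    K.shiftRat a (algebraMap K[X] (RatFunc K) p) =
      algebraMap K[X] (RatFunc K) (algEquivAevalXAddC a p) :=
  IsFractionRing.fieldEquivOfAlgEquiv_algebraMap K (RatFunc K) (RatFunc K) (algEquivAevalXAddC a) p

/-- the composition of two translations -/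
lemma shiftRat_add (K : Ext k) (a b : K) :
    (K.shiftRat a).comp (K.shiftRat b) = K.shiftRat (a + b) := by
  have h : ((K.shiftRat a).comp (K.shiftRat b)).toRingHom = (K.shiftRat (a + b)).toRingHom := by
    refine IsLocalization.ringHom_ext (R := K[X]) (S := RatFunc K) (nonZeroDivisors K[X])
      (RingHom.ext fun p => ?_)
    change K.shiftRat a (K.shiftRat b (algebraMap K[X] (RatFunc K) p)) =
      K.shiftRat (a + b) (algebraMap K[X] (RatFunc K) p)
    rw [shiftRat_algebraMap, shiftRat_algebraMap, shiftRat_algebraMap]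
    congr 1
    change aeval (X + C a) (aeval (X + C b) p) = aeval (X + C (a + b)) p
    rw [← AlgHom.comp_apply]
    congr 1
    ext
    simp [add_assoc]
  exact AlgHom.ext fun x => RingHom.congr_fun h x

namespace Motivic

variable (A : Motivic k R)

/-- `H^i(F, n) = 0` for all finitely generated extensions `F` of `k` of transcendence degree at most
`d`. -/
def Vanish (i : ℤ) (n d : ℕ) : Prop :=
  ∀ F : Ext k, Algebra.EssFiniteType k F → Algebra.trdeg k F ≤ d → Subsingleton (A.H i n F)

/-- `H^i(k, n) → H^i(K_m, n)` is bijective. -/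
def Rational (i : ℤ) (n m : ℕ) : Prop :=
  Function.Bijective (A.map i n (Ext.tower k m).ofBase)

/-- The translation `t ↦ t + a` of `K(t)` acts trivially on `H^i(K(t), n)`. -/
def Fixes (i : ℤ) (n : ℕ) (K : Ext k) (a : K) : Prop :=
  ∀ x : A.H i n K.rat, A.map i n (K.shiftRat a) x = x

/-- For every element `x` of `H^i(K(t), n)` infinitely many translates of `x` lie in the sum of
`H^i(K, n)` and a finitely generated module. -/
def FewTranslates (i : ℤ) (n : ℕ) (K : Ext k) : Prop :=
  ∀ x : A.H i n K.rat, ∃ (T : Set K) (N : Submodule R (A.H i n K.rat)), T.Infinite ∧ N.FG ∧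
    ∀ a ∈ T, A.map i n (K.shiftRat a) x ∈ N ⊔ LinearMap.range (A.map i n K.toRat)

/-- `H^i(L, n)` is generated by the image of `H^i(k, n)` and by less than `κ` elements. -/
def Small (i : ℤ) (n : ℕ) (L : Ext k) (κ : Cardinal.{0}) : Prop :=
  ∃ S : Set (A.H i n L), #S < κ ∧
    Submodule.span R S ⊔ LinearMap.range (A.map i n L.ofBase) = ⊤

lemma map_ofBase_rat (i : ℤ) (n : ℕ) (K : Ext k) (y : A.H i n (Ext.base k)) :
    A.map i n K.rat.ofBase y = A.map i n K.toRat (A.map i n K.ofBase y) := by
  rw [← toRat_comp_ofBase, A.map_comp]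
  rfl

lemma map_ofBase_base (i : ℤ) (n : ℕ) (y : A.H i n (Ext.base k)) :
    A.map i n (Ext.base k).ofBase y = y := by
  have h : (Ext.base k).ofBase = AlgHom.id k (Ext.base k) := AlgHom.ext fun _ => rfl
  rw [h, A.map_id]
  rfl

lemma ofBase_injective (i : ℤ) (n m : ℕ) :
    Function.Injective (A.map i n (Ext.tower k m).ofBase) := by
  induction m with
  | zero =>
    intro x y h
    exact ((A.map_ofBase_base i n x).symm.trans h).trans (A.map_ofBase_base i n y)
  | succ m ih =>
    intro x y h
    exact ih (A.injective i n _ (((A.map_ofBase_rat i n (Ext.tower k m) x).symm.trans h).trans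
      (A.map_ofBase_rat i n (Ext.tower k m) y)))

/-- from `K_(m+1)` to `K_m` -/
lemma surj_pred (i : ℤ) (n m : ℕ)
    (h : Function.Surjective (A.map i n (Ext.tower k (m + 1)).ofBase)) :
    Function.Surjective (A.map i n (Ext.tower k m).ofBase) := by
  intro x
  obtain ⟨y, hy⟩ := h (A.map i n (Ext.tower k m).toRat x)
  exact ⟨y, A.injective i n _ ((A.map_ofBase_rat i n (Ext.tower k m) y).symm.trans hy)⟩

lemma surj_le (i : ℤ) (n : ℕ) {m m' : ℕ} (hm : m ≤ m')
    (h : Function.Surjective (A.map i n (Ext.tower k m').ofBase)) :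
    Function.Surjective (A.map i n (Ext.tower k m).ofBase) := by
  induction hm with
  | refl => exact h
  | step _ ih => exact ih (A.surj_pred i n _ h)

lemma surj_zero (i : ℤ) (n : ℕ) : Function.Surjective (A.map i n (Ext.tower k 0).ofBase) :=
  fun x => ⟨x, A.map_ofBase_base i n x⟩

/-- Vanishing for the residue fields of the points of the affine line over `K_d` implies vanishing for
all finitely generated fields of transcendence degree at most `d`. -/
lemma vanish_of_residue [PerfectField k] (i : ℤ) (n d : ℕ)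
    (h : ∀ P : Pt (Ext.tower k d), Subsingleton (A.H i n ((Ext.tower k d).residue P))) :
    A.Vanish i n d := by
  have key : ∀ (j m : ℕ), m + j = d → ∀ F : Ext k, Algebra.EssFiniteType k F →
      Algebra.trdeg k F = m → Subsingleton (A.H i n F) := by
    intro j
    induction j with
    | zero =>
      intro m hm F hF hFm
      obtain rfl : m = d := by omega
      obtain ⟨P, ⟨e⟩⟩ := exists_model F m hFm
      exact A.subsingleton_of_equiv i n e (h P)
    | succ j ih =>
      intro m hm F hF hFm
      refine A.subsingleton_of_rat i n F (ih (m + 1) (by omega) F.rat (fg_rat F) ?_)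
      rw [trdeg_rat, hFm]
      simp
  intro F hF hFd
  obtain ⟨m, hm⟩ := Cardinal.lt_aleph0.mp (lt_of_le_of_lt hFd (Cardinal.natCast_lt_aleph0 (n := d)))
  rw [hm] at hFd
  have hmd : m ≤ d := by exact_mod_cast hFd
  exact key (d - m) m (by omega) F hF hm

lemma vanish_of_res [PerfectField k] (i : ℤ) (n d : ℕ)
    (h : ∀ x, A.res i n (Ext.tower k d) x = 0) : A.Vanish i n d :=
  A.vanish_of_residue i n d fun P => A.subsingleton_residue i n _ h P

/-- vanishing implies that the classes over `K_m`, `m ≤ d + 1`, are constant -/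
lemma rational_of_vanish (i : ℤ) (n d : ℕ) (h : A.Vanish i n d) :
    A.Rational (i + 1) (n + 1) (d + 1) := by
  refine ⟨A.ofBase_injective _ _ _, ?_⟩
  have key : ∀ m ≤ d + 1, Function.Surjective (A.map (i + 1) (n + 1) (Ext.tower k m).ofBase) := by
    intro m
    induction m with
    | zero => exact fun _ => A.surj_zero _ _
    | succ m ih =>
      intro hm x
      have hfg := fg_tower (k := k) m
      have h0 : A.res i n (Ext.tower k m) x = 0 := by
        refine Theory.Residues.ext fun P => ?_
        have h1 := h ((Ext.tower k m).residue P) (fg_residue _ P) (by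
          rw [trdeg_residue, trdeg_tower]
          exact_mod_cast (by omega : m ≤ d))
        exact Subsingleton.elim _ _
      obtain ⟨y, hy⟩ := (A.exact i n (Ext.tower k m) x).mp h0
      obtain ⟨z, hz⟩ := ih (by omega) y
      refine ⟨z, (A.map_ofBase_rat _ _ (Ext.tower k m) z).trans ?_⟩
      rw [hz, hy]
  exact key (d + 1) le_rfl

lemma res_eq_zero_of_rational (i : ℤ) (n d : ℕ) (h : A.Rational (i + 1) (n + 1) (d + 1)) :
    ∀ x, A.res i n (Ext.tower k d) x = 0 := by
  intro x
  obtain ⟨y, hy⟩ := h.2 x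
  rw [← hy]
  refine (congrArg _ (A.map_ofBase_rat _ _ (Ext.tower k d) y)).trans ?_
  exact A.res_map i n _ _

lemma fixes_of_rational (i : ℤ) (n d : ℕ) (h : A.Rational i n (d + 1)) (a : Ext.tower k d) :
    A.Fixes i n (Ext.tower k d) a := by
  intro x
  obtain ⟨y, hy⟩ := h.2 x
  have h1 := A.map_comp i n (Ext.tower k d).rat.ofBase ((Ext.tower k d).shiftRat a)
  rw [shiftRat_comp_ofBase] at h1
  rw [← hy]
  exact (LinearMap.congr_fun h1 y).symm

lemma fewTranslates_of_fixes (i : ℤ) (n : ℕ) (K : Ext k) {T : Set K} (hT : T.Infinite)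
    (h : ∀ a ∈ T, A.Fixes i n K a) : A.FewTranslates i n K := by
  intro x
  refine ⟨T, Submodule.span R {x}, hT, Submodule.fg_span_singleton x, fun a ha => ?_⟩
  rw [h a ha x]
  exact Submodule.mem_sup_left (Submodule.mem_span_singleton_self x)

/-- the residue at one point vanishes on a sum of submodules -/
lemma res_apply_of_mem (i : ℤ) (n : ℕ) (K : Ext k) (P : Pt K)
    (G : Set (A.H (i + 1) (n + 1) K.rat)) (hG : ∀ g ∈ G, P ∉ A.supp i n K g)
    (M : Submodule R (A.H (i + 1) (n + 1) K.rat)) (hM : ∀ g ∈ M, A.res i n K g = 0)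
    (x : A.H (i + 1) (n + 1) K.rat) (hx : x ∈ Submodule.span R G ⊔ M) :
    (A.res i n K x).at P = 0 := by
  classical
  let f : A.H (i + 1) (n + 1) K.rat →ₗ[R] A.H i n (K.residue P) :=
    A.component i n K P ∘ₗ A.res i n K
  have h1 : Submodule.span R G ⊔ M ≤ LinearMap.ker f := by
    refine sup_le ?_ ?_
    · rw [Submodule.span_le]
      intro g hg
      have := hG g hg
      exact not_not.mp this
    · intro g hg
      change (A.res i n K g).at P = 0
      rw [hM g hg]
      rfl
  exact h1 hx

lemma res_eq_zero_of_few (i : ℤ) (n : ℕ) (K : Ext k) (h : A.FewTranslates (i + 1) (n + 1) K) :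
    ∀ x, A.res i n K x = 0 := by
  intro x
  obtain ⟨T, N, hT, ⟨G, rfl⟩, hN⟩ := h x
  refine A.res_eq_zero_of_shift i n K x hT (⋃ g ∈ G, A.supp i n K g)
    (G.finite_toSet.biUnion fun g _ => A.supp_finite i n K g) fun a ha P hP => ?_
  by_contra hPG
  refine hP (A.res_apply_of_mem i n K P G (fun g hg hgP => hPG ?_) _ ?_ _ (hN a ha))
  · exact Set.mem_biUnion hg hgP
  · rintro _ ⟨z, rfl⟩
    exact A.res_map i n K z

lemma res_eq_zero_of_small (i : ℤ) (n : ℕ) (K : Ext k) [Infinite K]
    (h : A.Small (i + 1) (n + 1) K.rat #K) : ∀ x, A.res i n K x = 0 := by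
  classical
  intro x
  obtain ⟨S, hS, htop⟩ := h
  refine Theory.Residues.ext fun P => ?_
  by_contra hP
  have key : ∀ a : K, ∃ s : S, P.shift a ∈ A.supp i n K s.1 := by
    intro a
    by_contra hcon
    push Not at hcon
    have h1 : (A.res i n K (A.map (i + 1) (n + 1) (K.shiftRat a) x)).at (P.shift a) = 0 := by
      refine A.res_apply_of_mem i n K (P.shift a) S (fun g hg => hcon ⟨g, hg⟩)
        (LinearMap.range (A.map (i + 1) (n + 1) K.rat.ofBase)) ?_ _
        (htop ▸ Submodule.mem_top)
      rintro _ ⟨z, rfl⟩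
      refine (congrArg _ (A.map_ofBase_rat _ _ K z)).trans ?_
      exact A.res_map i n K _
    exact hP (A.at_shift_eq_zero i n K x a P h1)
  have hfin : ∀ s : S, {a : K | P.shift a ∈ A.supp i n K s.1}.Finite := by
    intro s
    refine Set.Finite.subset ((A.supp_finite i n K s.1).biUnion fun Q _ =>
      shift_fiber_finite P Q) fun a ha => ?_
    simp only [Set.mem_iUnion]
    exact ⟨_, ha, rfl⟩
  have hcov : (⋃ s : S, {a : K | P.shift a ∈ A.supp i n K s.1}) = Set.univ := by
    refine Set.eq_univ_of_forall fun a => ?_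
    obtain ⟨s, hs⟩ := key a
    exact Set.mem_iUnion.mpr ⟨s, hs⟩
  rcases finite_or_infinite S with hSf | hSi
  · refine Set.infinite_univ (α := K) ?_
    rw [← hcov]
    exact Set.finite_iUnion hfin
  · have h1 : #K ≤ #S * ℵ₀ := by
      calc #K = #(Set.univ : Set K) := Cardinal.mk_univ.symm
        _ = #(⋃ s : S, {a : K | P.shift a ∈ A.supp i n K s.1}) := by rw [hcov]
        _ ≤ Cardinal.sum fun s : S => #({a : K | P.shift a ∈ A.supp i n K s.1} : Set K) :=
          Cardinal.mk_iUnion_le_sum_mk
        _ ≤ Cardinal.sum fun _ : S => ℵ₀ :=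
          Cardinal.sum_le_sum _ _ fun s => (Cardinal.lt_aleph0_iff_set_finite.mpr (hfin s)).le
        _ = #S * ℵ₀ := by simp
    rw [Cardinal.mul_aleph0_eq (Cardinal.aleph0_le_mk S)] at h1
    exact absurd hS (not_lt.mpr h1)

/-- in characteristic zero one translation is enough -/
lemma fixes_nat (i : ℤ) (n : ℕ) (K : Ext k) (h : A.Fixes i n K 1) (j : ℕ) :
    A.Fixes i n K (j : K) := by
  induction j with
  | zero =>
    intro x
    have h0 : K.shiftRat ((0 : ℕ) : K) = AlgHom.id k K.rat := by
      have h1 := shiftRat_add K ((0 : ℕ) : K) ((0 : ℕ) : K)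
      rw [Nat.cast_zero, add_zero] at h1
      refine AlgHom.ext fun y => ?_
      rw [Nat.cast_zero]
      exact (K.shiftRat (0 : K) : K.rat →+* K.rat).injective (AlgHom.congr_fun h1 y)
    rw [h0, A.map_id]
    rfl
  | succ j ih =>
    intro x
    rw [Nat.cast_succ, ← shiftRat_add, A.map_comp]
    change A.map i n (K.shiftRat (j : K)) (A.map i n (K.shiftRat 1) x) = x
    rw [h x, ih x]

/-- **Theorem.** Vanishing for all fields of transcendence degree at most `d` in terms of `K_(d+1)`. -/
theorem tfae [PerfectField k] (i : ℤ) (n d : ℕ) [Infinite (Ext.tower k d)] :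
    List.TFAE [
      A.Vanish i n d,
      A.Rational (i + 1) (n + 1) (d + 1),
      ∀ a : Ext.tower k d, A.Fixes (i + 1) (n + 1) (Ext.tower k d) a,
      A.FewTranslates (i + 1) (n + 1) (Ext.tower k d),
      A.Small (i + 1) (n + 1) (Ext.tower k (d + 1)) #(Ext.tower k d)] := by
  tfae_have 1 → 2 := A.rational_of_vanish i n d
  tfae_have 2 → 3 := fun h a => A.fixes_of_rational (i + 1) (n + 1) d h a
  tfae_have 3 → 4 := fun h =>
    A.fewTranslates_of_fixes _ _ _ (Set.infinite_univ (α := Ext.tower k d)) fun a _ => h a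
  tfae_have 4 → 1 := fun h =>
    A.vanish_of_res i n d (A.res_eq_zero_of_few i n _ h)
  tfae_have 2 → 5 := by
    intro h
    refine ⟨∅, ?_, ?_⟩
    · rw [Cardinal.mk_eq_zero]
      exact lt_of_lt_of_le Cardinal.aleph0_pos (Cardinal.aleph0_le_mk _)
    · rw [LinearMap.range_eq_top.mpr h.2]
      simp
  tfae_have 5 → 1 := fun h =>
    A.vanish_of_res i n d (A.res_eq_zero_of_small i n (Ext.tower k d) h)
  tfae_finish

end Motivic

end Pool.Agent.Run7.h384.RF
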